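import Pool.Agent.H180.PG.Stm

/-! Job PG-Sep: two top nodes split. -/

open Set Topology Cardinal

namespace Pool.Agent.Q277.PG

open Pool.Agent.H180.PG

open Classical in
/-- the restriction of a node to `{y | y ≤ x}` -/
noncomputable def res {K : Type} (a : Node K) (x : W) : Node K :=
  ⟨fun y => if y ≤ x then a.1 y else none, by
    intro y z hz hy
    by_cases h : y ≤ x
    · simp only [if_pos h] at hy
      simp only [if_pos (hz.le.trans h)]
      exact a.2 y z hz hy
    · simp only [if_neg h] at hy
      exact absurd rfl hy⟩

theorem res_pos {K : Type} (a : Node K) {x y : W} (h : y ≤ x) : (res a x).1 y = a.1 y := by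
  classical
  simp only [res, if_pos h]

theorem res_neg {K : Type} (a : Node K) {x y : W} (h : ¬ y ≤ x) : (res a x).1 y = none := by
  classical
  simp only [res, if_neg h]

theorem sep : S_Sep := by
  intro K a b ha hb
  constructor
  · intro h
    apply Subtype.ext
    funext x
    exact (h x (ha x)).symm
  · intro h
    have h1 : ∃ x, a.1 x ≠ b.1 x := by
      by_contra hc
      push Not at hc
      exact h (Subtype.ext (funext hc))
    obtain ⟨x, hx⟩ := h1
    have : NoMaxOrder W := Cardinal.noMaxOrder (aleph0_le_aleph 1)
    refine ⟨res a x, ?_, ?_, ?_⟩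
    · intro ht
      obtain ⟨y, hy⟩ := exists_gt x
      exact ht y (res_neg a (not_le.2 hy))
    · intro y hy
      by_cases hyx : y ≤ x
      · rw [res_pos a hyx]
      · exact absurd (res_neg a hyx) hy
    · intro hle
      have h2 := hle x (by rw [res_pos a le_rfl]; exact ha x)
      rw [res_pos a le_rfl] at h2
      exact hx h2.symm

end Pool.Agent.Q277.PG
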